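import Pool.Agent.K1H27.PL.Stm2
import Pool.Agent.K1H45.PL.Ker
import Pool.Agent.K1H48.VM.ONE
import Pool.Agent.K1H96.PL.Spc

/-!
# Project PL, second part: EIG, ATM, PRF
-/

set_option autoImplicit false

namespace Pool.Agent.K1H26.PL

open MeasureTheory Set Metric Filter Topology
open scoped ENNReal NNReal
open Pool.Agent.K1H27.PL
open Pool.Agent.K1H27.VM (HasHyp IsInt IsMul HT)

/-- operators of finite rank are compact -/
theorem compact_of_rank {E : Type} [NormedAddCommGroup E] [NormedSpace ℂ E] (F : E →L[ℂ] E)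
    (h : FiniteDimensional ℂ (LinearMap.range (F : E →ₗ[ℂ] E))) : IsCompactOperator F := by
  let Y : Submodule ℂ E := LinearMap.range (F : E →ₗ[ℂ] E)
  have hY : FiniteDimensional ℂ Y := h
  let F' : E →L[ℂ] Y := F.codRestrict Y fun x => ⟨x, rfl⟩
  have h1 : IsCompactOperator (ContinuousLinearMap.id ℂ Y) :=
    (isCompactOperator_id_iff_finiteDimensional (𝕜 := ℂ)).2 hY
  exact (h1.comp_clm F').clm_comp Y.subtypeL

/-- limits of operators of finite rank are compact -/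
theorem compact_of_apx {E : Type} [NormedAddCommGroup E] [NormedSpace ℂ E] [CompleteSpace E]
    (H : E →L[ℂ] E) (h : ∀ ε : ℝ, 0 < ε → ∃ F : E →L[ℂ] E,
      FiniteDimensional ℂ (LinearMap.range (F : E →ₗ[ℂ] E)) ∧ ‖H - F‖ < ε) :
    IsCompactOperator H := by
  have hcl : IsClosed {f : E →L[ℂ] E | IsCompactOperator f} :=
    isClosed_setOfPred_isCompactOperator
  have hmem : H ∈ closure {f : E →L[ℂ] E | IsCompactOperator f} := by
    rw [Metric.mem_closure_iff]
    intro ε hε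
    obtain ⟨F, hF, hn⟩ := h ε hε
    exact ⟨F, compact_of_rank F hF, by rwa [dist_eq_norm]⟩
  rw [hcl.closure_eq] at hmem
  exact hmem

/-- the Fredholm alternative -/
theorem exists_fixed {E : Type} [NormedAddCommGroup E] [NormedSpace ℂ E] [CompleteSpace E]
    (H : E →L[ℂ] E) (h : ∀ ε : ℝ, 0 < ε → ∃ F : E →L[ℂ] E,
      FiniteDimensional ℂ (LinearMap.range (F : E →ₗ[ℂ] E)) ∧ ‖H - F‖ < ε)
    (hnu : ¬ IsUnit (1 - H)) : ∃ u : E, u ≠ 0 ∧ H u = u := by
  have hc := compact_of_apx H h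
  rcases hc.hasEigenvalue_or_mem_resolventSet (μ := (1 : ℂ)) one_ne_zero with h1 | h1
  · obtain ⟨u, hu⟩ := h1.exists_hasEigenvector
    refine ⟨u, hu.2, ?_⟩
    have h2 := hu.apply_eq_smul
    rw [one_smul] at h2
    exact h2
  · rw [spectrum.mem_resolventSet_iff, map_one] at h1
    exact absurd h1 hnu

theorem t_PRF : S_PRF := by
  intro S _ μ φ
  have h1 : ∀ U : Set ℂ, IsOpen U → μ (φ ⁻¹' U) ≠ 0 → (U ∩ essR μ φ).Nonempty := by
    intro U hU h0
    by_contra hne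
    rw [not_nonempty_iff_eq_empty] at hne
    have h1 : ∀ z ∈ U, ∃ ε : ℝ, 0 < ε ∧ μ {s | ‖φ s - z‖ < ε} = 0 := by
      intro z hz
      by_contra hcon
      push Not at hcon
      have h2 : z ∈ U ∩ essR μ φ := ⟨hz, fun ε hε => pos_iff_ne_zero.2 (hcon ε hε)⟩
      rw [hne] at h2
      exact h2
    choose! e he hμ using h1
    obtain ⟨T, hTU, hT, hcov⟩ := TopologicalSpace.countable_cover_nhdsWithin (s := U)
      (f := fun z => ball z (e z)) (fun z hz => mem_nhdsWithin_of_mem_nhds (ball_mem_nhds z (he z hz)))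
    apply h0
    have h2 : φ ⁻¹' U ⊆ ⋃ z ∈ T, {s | ‖φ s - z‖ < e z} := by
      intro s hs
      have h3 := hcov hs
      simp only [mem_iUnion] at h3 ⊢
      obtain ⟨z, hz, h4⟩ := h3
      refine ⟨z, hz, ?_⟩
      rwa [mem_ball, dist_eq_norm] at h4
    refine measure_mono_null h2 ?_
    rw [measure_biUnion_null_iff hT]
    exact fun z hz => hμ z (hTU hz)
  refine ⟨h1, ?_, ?_⟩
  · intro c hc h0 ε hε
    have h2 : μ (φ ⁻¹' (ball c ε \ {c})) ≠ 0 := by
      intro h3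
      have h4 := hc ε hε
      have h5 : {s | ‖φ s - c‖ < ε} ⊆ φ ⁻¹' (ball c ε \ {c}) ∪ {s | φ s = c} := by
        intro s hs
        by_cases h : φ s = c
        · exact Or.inr h
        · refine Or.inl ⟨?_, h⟩
          rw [mem_ball, dist_eq_norm]
          exact hs
      have h6 := (measure_mono h5).trans (measure_union_le (μ := μ) _ _)
      rw [h0, h3, add_zero] at h6
      exact absurd h4 (not_lt.2 h6)
    obtain ⟨c', ⟨h3, h4⟩, h5⟩ := h1 _ (isOpen_ball.sdiff isClosed_singleton) h2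
    refine ⟨c', h5, h4, ?_⟩
    rwa [mem_ball, dist_eq_norm] at h3
  · rw [← isOpen_compl_iff, Metric.isOpen_iff]
    intro c hc
    have h2 : ∃ ε : ℝ, 0 < ε ∧ μ {s | ‖φ s - c‖ < ε} = 0 := by
      by_contra hcon
      push Not at hcon
      exact hc fun ε hε => pos_iff_ne_zero.2 (hcon ε hε)
    obtain ⟨ε, hε, h3⟩ := h2
    refine ⟨ε / 2, by positivity, fun c' hc' hmem => ?_⟩
    rw [mem_ball, dist_eq_norm] at hc'
    have h4 := hmem (ε / 2) (by positivity)
    have h5 : {s | ‖φ s - c'‖ < ε / 2} ⊆ {s | ‖φ s - c‖ < ε} := by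
      intro s hs
      have hs' : ‖φ s - c'‖ < ε / 2 := hs
      have h6 : φ s - c = (φ s - c') + (c' - c) := by ring
      show ‖φ s - c‖ < ε
      rw [h6]
      exact lt_of_le_of_lt (norm_add_le _ _) (by linarith)
    rw [measure_mono_null h5 h3] at h4
    exact lt_irrefl _ h4

theorem t_ATM : S_ATM := by
  intro S _ μ _ p q _ _ hpq hp hq φ hφ _ U γ D k hγ hk hW N K hN hK z hz h0
  have hcc := Pool.Agent.K1H2.VM.real_conj hpq hp hq
  have hP : 0 < p.toReal := hcc.pos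
  have hQ : 0 < q.toReal := hcc.symm.pos
  have hPQ : 0 < p.toReal / q.toReal := div_pos hP hQ
  have hA : MeasurableSet {s | φ s = z} := hφ (measurableSet_singleton z)
  obtain ⟨x, hx1, hx2⟩ := Pool.Agent.K1H96.PL.exists_unit (p := p) hp hA (pos_iff_ne_zero.2 h0)
  have hx0 : x ≠ 0 := by
    rintro rfl
    rw [norm_zero] at hx1
    exact zero_ne_one hx1
  refine ⟨x, hx0, ?_⟩
  have hm1 : Measurable (Function.uncurry fun s t => ‖k s t‖ₑ ^ q.toReal * (‖z - φ t‖ₑ⁻¹) ^ γ) := by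
    refine (hk.enorm.pow_const _).mul ?_
    exact (((measurable_const.sub (hφ.comp measurable_snd)).enorm.inv).pow_const _)
  have hm2 : Measurable fun s => ∫⁻ t, ‖k s t‖ₑ ^ q.toReal * (‖z - φ t‖ₑ⁻¹) ^ γ ∂μ :=
    hm1.lintegral_prod_right'
  have hm3 : Measurable fun s => (∫⁻ t, ‖k s t‖ₑ ^ q.toReal * (‖z - φ t‖ₑ⁻¹) ^ γ ∂μ) ^
      (p.toReal / q.toReal) * (‖z - φ s‖ₑ⁻¹) ^ γ :=
    (hm2.pow_const _).mul (((measurable_const.sub hφ).enorm.inv).pow_const _)
  have h1 := ae_lt_top hm3 (ne_top_of_le_ne_top ENNReal.coe_ne_top (hW z hz z hz))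
  have h2 : ⇑(K x) =ᵐ[μ] fun _ => (0 : ℂ) := by
    filter_upwards [hK x, h1] with s hs h3
    rw [hs]
    have h4 : (‖z - φ s‖ₑ⁻¹) ^ γ ≠ 0 := by
      rw [Ne, ENNReal.rpow_eq_zero_iff]
      simp
      intro h5
      linarith
    have h5 : (∫⁻ t, ‖k s t‖ₑ ^ q.toReal * (‖z - φ t‖ₑ⁻¹) ^ γ ∂μ) ^
        (p.toReal / q.toReal) ≠ ⊤ := by
      intro h6
      rw [h6, ENNReal.top_mul h4] at h3
      exact lt_irrefl _ h3
    have h6 : ∫⁻ t, ‖k s t‖ₑ ^ q.toReal * (‖z - φ t‖ₑ⁻¹) ^ γ ∂μ ≠ ⊤ := by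
      intro h7
      rw [h7, ENNReal.top_rpow_of_pos hPQ] at h5
      exact h5 rfl
    have h7 := ae_lt_top (hm1.comp (measurable_prodMk_left (x := s))) h6
    refine integral_eq_zero_of_ae ?_
    filter_upwards [h7, hx2] with t ht hxt
    by_cases h8 : φ t = z
    · have h9 : ‖k s t‖ₑ ^ q.toReal * (‖z - φ t‖ₑ⁻¹) ^ γ < ⊤ := ht
      rw [h8, sub_self, enorm_zero, ENNReal.inv_zero, ENNReal.top_rpow_of_pos (by linarith)] at h9
      have h10 : ‖k s t‖ₑ ^ q.toReal = 0 := by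
        by_contra hne
        rw [ENNReal.mul_top hne] at h9
        exact lt_irrefl _ h9
      rw [ENNReal.rpow_eq_zero_iff_of_pos hQ, enorm_eq_zero] at h10
      simp [h10]
    · simp [hxt h8]
  apply Lp.ext
  filter_upwards [h2, hN x, hx2, Lp.coeFn_add (N x) (K x), Lp.coeFn_smul z x] with s h3 h4 h5 h6 h7
  show ((N x + K x : Lp ℂ p μ) : S → ℂ) s = _
  rw [h6, Pi.add_apply, h3, h4, h7, Pi.smul_apply, smul_eq_mul, add_zero]
  by_cases h8 : φ s = z
  · rw [h8]
  · rw [h5 h8, mul_zero, mul_zero]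

theorem t_EIG : S_EIG := by
  intro S _ μ _ p _ hp1 hp φ hφ hM k z hz H N K hH hapx hN hK hnu
  obtain ⟨M₀, hM₀⟩ := hM
  obtain ⟨u, hu0, hu⟩ := exists_fixed H hapx hnu
  have hP : 0 < p.toReal := ENNReal.toReal_pos (zero_lt_one.trans hp1).ne' hp
  have h1 : ∃ ε : ℝ, 0 < ε ∧ μ {s | ‖φ s - z‖ < ε} = 0 := by
    by_contra hcon
    push Not at hcon
    exact hz fun ε hε => pos_iff_ne_zero.2 (hcon ε hε)
  obtain ⟨ε, hε, h1⟩ := h1
  have hae : ∀ᵐ s ∂μ, ε ≤ ‖z - φ s‖ := by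
    rw [ae_iff]
    refine measure_mono_null (fun s hs => ?_) h1
    have hs' : ¬ (ε ≤ ‖z - φ s‖) := hs
    show ‖φ s - z‖ < ε
    rw [norm_sub_rev]
    exact not_le.1 hs'
  obtain ⟨d, hd⟩ : ∃ d : ℝ, d = ‖z‖ + |M₀| := ⟨_, rfl⟩
  have hd0 : 0 ≤ d := by rw [hd]; positivity
  have hζ : ∀ s, ‖z - φ s‖ ≤ d := fun s => by
    rw [hd]
    exact (norm_sub_le _ _).trans (add_le_add le_rfl ((hM₀ s).trans (le_abs_self _)))
  have hms : MeasurableSet {s | ε ≤ ‖z - φ s‖} :=
    measurableSet_le measurable_const (measurable_const.sub hφ).norm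
  obtain ⟨ψ, hψ⟩ : ∃ ψ : S → ℂ, ψ = {s | ε ≤ ‖z - φ s‖}.indicator
      (fun s => bb p.toReal (z - φ s)) := ⟨_, rfl⟩
  have hψm : Measurable ψ := by
    rw [hψ]
    exact ((Pool.Agent.K1H45.PL.meas_bb _).comp (measurable_const.sub hφ)).indicator hms
  have hψb : ∀ s, ‖ψ s‖ ≤ d ^ (1 / p.toReal) * ε⁻¹ := by
    intro s
    rw [hψ]
    by_cases hs : s ∈ {s | ε ≤ ‖z - φ s‖}
    · rw [indicator_of_mem hs]
      unfold bb
      rw [norm_mul, norm_inv, Complex.norm_real, Real.norm_of_nonneg (by positivity)]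
      exact mul_le_mul (Real.rpow_le_rpow (norm_nonneg _) (hζ s) (by positivity))
        (inv_anti₀ hε hs) (by positivity) (by positivity)
    · rw [indicator_of_notMem hs, norm_zero]
      positivity
  obtain ⟨M, hMm⟩ := K1H48.VM.exMul (p := p) (μ := μ) hψm hψb
  have hf : ⇑(M u) =ᵐ[μ] fun s => bb p.toReal (z - φ s) * u s := by
    filter_upwards [hMm u, hae] with s h2 h3
    rw [h2, hψ, indicator_of_mem (show s ∈ {s | ε ≤ ‖z - φ s‖} from h3)]
  have hHu : ∀ᵐ s ∂μ, u s = aa p.toReal (z - φ s) * (K (M u)) s := by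
    have h2 := hH u
    rw [hu] at h2
    filter_upwards [h2, hK (M u)] with s h3 h4
    rw [h3, h4, ← integral_const_mul]
    refine integral_congr_ae ?_
    filter_upwards [hf] with t ht
    rw [ht]
    simp only [kz]
    ring
  refine ⟨M u, ?_, ?_⟩
  · intro h0
    apply hu0
    have h2 : K (M u) = 0 := by rw [h0, map_zero]
    rw [h2] at hHu
    apply Lp.ext
    filter_upwards [hHu, Lp.coeFn_zero ℂ p μ] with s h3 h4
    rw [h3, h4, Pi.zero_apply, mul_zero]
  · apply Lp.ext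
    filter_upwards [hHu, hf, hN (M u), Lp.coeFn_add (N (M u)) (K (M u)), Lp.coeFn_smul z (M u),
      hae] with s h3 h4 h5 h6 h7 h8
    show ((N (M u) + K (M u) : Lp ℂ p μ) : S → ℂ) s = _
    rw [h6, Pi.add_apply, h5, h7, Pi.smul_apply, smul_eq_mul]
    have hw : z - φ s ≠ 0 := by
      intro h9
      rw [h9, norm_zero] at h8
      linarith
    have h9 := Pool.Agent.K1H45.PL.nn_aa hP hw
    have h10 : (z - φ s) * bb p.toReal (z - φ s) = nn p.toReal (z - φ s) := by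
      unfold bb nn
      field_simp
    have h11 : (z - φ s) * (M u) s = (K (M u)) s := by
      calc (z - φ s) * (M u) s = (z - φ s) * bb p.toReal (z - φ s) * u s := by rw [h4]; ring
        _ = nn p.toReal (z - φ s) * (aa p.toReal (z - φ s) * (K (M u)) s) := by rw [h10, ← h3]
        _ = (K (M u)) s := by rw [← mul_assoc, h9, one_mul]
    linear_combination -h11

end Pool.Agent.K1H26.PL
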