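import Pool.Agent.K1H49.PL.Stm

/-! Project PL (owner helper49), piece SPLB (task 49008). -/

set_option autoImplicit false

namespace Pool.Agent.K1H26.PL

open Pool.Agent.K1H49.PL

universe u

theorem emb_mono {e : Nd → Nd} (he : Emb e) : ∀ (τ μ : Nd), e μ <+: e (μ ++ τ) := by
  intro τ
  induction τ with
  | nil => intro μ; simp
  | cons d τ ih =>
    intro μ
    have h1 : e μ <+: e (μ ++ [d]) := (List.prefix_append _ _).trans (he μ d)
    have h2 := ih (μ ++ [d])
    have h3 : μ ++ d :: τ = (μ ++ [d]) ++ τ := by simp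
    rw [h3]
    exact h1.trans h2

theorem emb_comp {e e' : Nd → Nd} (he : Emb e) (he' : Emb e') : Emb (fun π => e (e' π)) := by
  intro π d
  obtain ⟨τ, hτ⟩ := he' π d
  have h1 : e (e' π) ++ [d] <+: e (e' π ++ [d]) := he _ d
  have h2 := emb_mono he τ (e' π ++ [d])
  rw [hτ] at h2
  exact h1.trans h2

theorem inc_split : ∀ μ ν : Nd, Inc μ ν → ∃ ρ μ' ν' : Nd,
    (μ = ρ ++ false :: μ' ∧ ν = ρ ++ true :: ν') ∨ (μ = ρ ++ true :: μ' ∧ ν = ρ ++ false :: ν') := by
  intro μ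
  induction μ with
  | nil => intro ν h; exact absurd (List.nil_prefix) h.1
  | cons a μ ih =>
    intro ν h
    cases ν with
    | nil => exact absurd (List.nil_prefix) h.2
    | cons b ν =>
      by_cases hab : a = b
      · subst hab
        have h' : Inc μ ν := by
          refine ⟨fun h1 => h.1 ?_, fun h1 => h.2 ?_⟩
          · exact (List.cons_prefix_cons).mpr ⟨rfl, h1⟩
          · exact (List.cons_prefix_cons).mpr ⟨rfl, h1⟩
        obtain ⟨ρ, μ', ν', h1 | h1⟩ := ih ν h'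
        · exact ⟨a :: ρ, μ', ν', Or.inl ⟨by rw [h1.1]; rfl, by rw [h1.2]; rfl⟩⟩
        · exact ⟨a :: ρ, μ', ν', Or.inr ⟨by rw [h1.1]; rfl, by rw [h1.2]; rfl⟩⟩
      · refine ⟨[], μ, ν, ?_⟩
        cases a <;> cases b <;> simp_all

variable {M : Type u}

theorem D_forall (Y : Sys M) {α J : Type} [Finite J] (S : J → Set (α → M))
    (h : ∀ j, Y.D (S j)) : Y.D {v | ∀ j, v ∈ S j} := by
  classical
  have := Fintype.ofFinite J
  have key : ∀ s : Finset J, Y.D {v | ∀ j ∈ s, v ∈ S j} := by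
    intro s
    induction s using Finset.induction_on with
    | empty =>
      have e : {v : α → M | ∀ j ∈ (∅ : Finset J), v ∈ S j} = Set.univ := by ext; simp
      rw [e]; exact Y.univ
    | insert a s ha ih =>
      have e : {v : α → M | ∀ j ∈ insert a s, v ∈ S j} = S a ∩ {v | ∀ j ∈ s, v ∈ S j} := by
        ext; simp
      rw [e]; exact Y.inter (h a) ih
  have h2 := key Finset.univ
  simpa using h2

/-- the relation given by roles -/
def TT {Y : Sys M} {Λ A ι : Type} (R : RS Y Λ A ι) {J : Type} (a : J → Λ) (w : A → M)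
    (v : J × ι → M) : Prop :=
  R.r0 w ∧ ∀ j, R.r (a j) w (fun i => v (j, i))

theorem TT_D2 {Y : Sys M} {Λ A ι : Type} (R : RS Y Λ A ι) {J : Type} [Finite J] (a : J → Λ) :
    Y.D2 (TT R a) := by
  unfold Sys.D2 TT
  have h0 : Y.D {v : A ⊕ (J × ι) → M | R.r0 (v ∘ Sum.inl)} := Y.pull Sum.inl R.d0
  have h1 : ∀ j, Y.D {v : A ⊕ (J × ι) → M |
      R.r (a j) (v ∘ Sum.inl) (fun i => v (Sum.inr (j, i)))} := by
    intro j
    exact Y.pull (Sum.map id (fun i => (j, i)) : A ⊕ ι → A ⊕ (J × ι)) (R.d (a j))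
  exact Y.inter h0 (D_forall Y _ h1)

theorem TT_proj {Y : Sys M} {Λ A ι : Type} [Finite A] (R : RS Y Λ A ι) {J : Type} [Finite J]
    (a : J → Λ) : Y.D {v : J × ι → M | ∃ w : A → M, TT R a w v} := by
  have h := Y.pull (Sum.swap : A ⊕ (J × ι) → (J × ι) ⊕ A) (TT_D2 R a)
  have h2 := Y.proj (α := J × ι) (β := A) h
  exact h2

theorem ln_bd (m : ℕ) (f : Nd → Nd) : ∃ b, ∀ η : Nd, η.length ≤ m → (f η).length ≤ b := by
  have hfin : Finite (LN m) := (List.finite_length_le Bool m).to_subtype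
  obtain ⟨b, hb⟩ := (Set.finite_range (fun q : LN m => (f q.1).length)).bddAbove
  exact ⟨b, fun η hη => hb ⟨⟨η, hη⟩, rfl⟩⟩

theorem t_SPLB (h1 : S_RAM) (h2 : S_JT1) (h3 : S_JT2) : S_SPLB.{u} := by
  intro M Y ι _ c hNW hMax Λ A _ R C K hk
  classical
  obtain ⟨F, hF⟩ : ∃ F, F = C.plug (.node [] (K.plug .nil) (K.plug .nil)) := ⟨_, rfl⟩
  rw [← hF]
  obtain ⟨m, hm⟩ : ∃ m, ∀ p ∈ F.pos [], p.1.length ≤ m := by
    refine ⟨((F.pos []).map (fun p => p.1.length)).sum, fun p hp => ?_⟩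
    exact List.le_sum_of_mem (List.mem_map_of_mem hp)
  let a : Fin (F.pos []).length → Λ := fun j => ((F.pos []).get j).2
  let ps : Fin (F.pos []).length → LN m := fun j =>
    ⟨((F.pos []).get j).1, hm _ (List.get_mem _ _)⟩
  let SF : Set ((LN m × ι) → M) := {v | ∃ w, TT R a w (fun q => v (ps q.1, q.2))}
  have hSF : Y.D SF := Y.pull (fun q : Fin (F.pos []).length × ι => (ps q.1, q.2)) (TT_proj R a)
  have hSF2 : ∀ f : Nd → Nd, (fun p : LN m × ι => c (f p.1.1) p.2) ∈ SF ↔ Good R c F f := by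
    intro f
    constructor
    · rintro ⟨w, hw0, hw⟩
      refine ⟨w, hw0, fun p hp => ?_⟩
      obtain ⟨j, hj⟩ := List.get_of_mem hp
      have h4 := hw j
      simp only [a, ps] at h4
      rw [hj] at h4
      exact h4
    · rintro ⟨w, hw0, hw⟩
      exact ⟨w, hw0, fun j => hw _ (List.get_mem _ _)⟩
  by_cases hc : ∀ n0, ∃ n, n0 ≤ n ∧ ∃ e, Emb e ∧ ∀ e', Emb e' →
      (∀ η : Nd, η.length ≤ m → (e' η).length ≤ n) → Good R c F (fun π => e (e' π))
  · let Γ : Set (Set (Nd × ι → M)) := {S | Y.D S ∧ ∃ b, ∀ n, b ≤ n → ∀ e, Emb e →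
      (∀ e', Emb e' → (∀ η : Nd, η.length ≤ m → (e' η).length ≤ n) →
        Good R c F (fun π => e (e' π))) → (fun p : Nd × ι => c (e p.1) p.2) ∈ S}
    obtain ⟨v, hv⟩ := Y.sat Γ (fun S hS => hS.1) (by
      intro Δ hΔ
      have hb : ∀ S ∈ Δ, ∃ b, ∀ n, b ≤ n → ∀ e, Emb e →
          (∀ e', Emb e' → (∀ η : Nd, η.length ≤ m → (e' η).length ≤ n) →
            Good R c F (fun π => e (e' π))) → (fun p : Nd × ι => c (e p.1) p.2) ∈ S :=
        fun S hS => (hΔ S hS).2
      choose! b hb using hb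
      obtain ⟨n, hn, e, he, hal⟩ := hc (Δ.sup b)
      exact ⟨_, fun S hS => hb S hS n ((Finset.le_sup hS).trans hn) e he hal⟩)
    have hc' : ∀ m' S, Y.D S → Hm c m' S → Hm (fun π i => v (π, i)) m' S := by
      intro m' S hS hH e he
      have hmem : {u : Nd × ι → M | (fun p : LN m' × ι => u (e p.1.1, p.2)) ∈ S} ∈ Γ := by
        refine ⟨Y.pull (fun p : LN m' × ι => (e p.1.1, p.2)) hS, 0, fun n _ e0 he0 _ => ?_⟩
        exact hH (fun π => e0 (e π)) (emb_comp he0 he)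
      exact hv _ hmem
    have hSFc' : Hm (fun π i => v (π, i)) m SF := by
      intro e he
      have hmem : {u : Nd × ι → M | (fun p : LN m × ι => u (e p.1.1, p.2)) ∈ SF} ∈ Γ := by
        obtain ⟨b, hb⟩ := ln_bd m e
        refine ⟨Y.pull (fun p : LN m × ι => (e p.1.1, p.2)) hSF, b, fun n hn e0 he0 hal => ?_⟩
        exact (hSF2 (fun π => e0 (e π))).mpr (hal e he (fun η hη => (hb η hη).trans hn))
      exact hv _ hmem
    have hfin := hMax _ hc' m SF hSF hSFc'
    intro e he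
    exact (hSF2 e).mp (hfin e he)
  · exfalso
    push Not at hc
    obtain ⟨n0, hn0⟩ := hc
    have hnone : ∀ n, n0 ≤ n → ∃ e, Emb e ∧ ∀ e', Emb e' →
        (∀ η : Nd, η.length ≤ m → (e' η).length ≤ n) → ¬ Good R c F (fun π => e (e' π)) := by
      intro n hn
      obtain ⟨e, he, h | h⟩ := h1 m n (fun f => (fun p : LN m × ι => c (f p.1) p.2) ∈ SF)
      · exfalso
        obtain ⟨e', he', hl, hg⟩ := hn0 n hn e he
        exact hg ((hSF2 (fun π => e (e' π))).mp (h e' he' hl))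
      · exact ⟨e, he, fun e' he' hl hg => h e' he' hl ((hSF2 (fun π => e (e' π))).mpr hg)⟩
    obtain ⟨Pc, hPc⟩ : ∃ P, P = (C.plug .nil).pos [] := ⟨_, rfl⟩
    obtain ⟨Pk, hPk⟩ : ∃ P, P = (K.plug .nil).pos [] := ⟨_, rfl⟩
    let a2 : Fin Pc.length ⊕ Fin Pk.length → Λ :=
      Sum.elim (fun j => (Pc.get j).2) (fun j => (Pk.get j).2)
    refine hNW A ((Fin Pc.length ⊕ Fin Pk.length) × ι) (TT R a2) (TT_D2 R a2) ?_
    intro N
    choose E hE1 hE2 using (fun ρ μ ν => h3 C K ρ μ ν)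
    obtain ⟨b, hb⟩ : ∃ b, ∀ (ρ μ ν η : Nd), ρ.length ≤ N → μ.length ≤ N → ν.length ≤ N →
        η.length ≤ m → (E ρ μ ν η).length ≤ b := by
      have hfN : Finite (LN N) := (List.finite_length_le Bool N).to_subtype
      have hfm : Finite (LN m) := (List.finite_length_le Bool m).to_subtype
      obtain ⟨b, hb⟩ := (Set.finite_range (fun q : LN N × LN N × LN N × LN m =>
        (E q.1.1 q.2.1.1 q.2.2.1.1 q.2.2.2.1).length)).bddAbove
      exact ⟨b, fun ρ μ ν η h1 h2 h3 h4 => hb ⟨(⟨ρ, h1⟩, ⟨μ, h2⟩, ⟨ν, h3⟩, ⟨η, h4⟩), rfl⟩⟩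
    obtain ⟨e, he, hg⟩ := hnone (max n0 b) (le_max_left _ _)
    obtain ⟨bb, hbb⟩ : ∃ bb : Nd → ((Fin Pc.length ⊕ Fin Pk.length) × ι) → M, bb =
      fun ν q => Sum.elim (fun j => c (e (Pc.get j).1) q.2)
        (fun j => c (e (jt C.hp K.hp ν ++ (Pk.get j).1)) q.2) q.1 := ⟨_, rfl⟩
    refine ⟨bb, ?_, ?_⟩
    · intro σ _
      obtain ⟨e1, he1, h⟩ := h2 C K σ
      obtain ⟨w, hw0, hw⟩ := hk (σ.length + 1) (fun π => e (e1 π)) (emb_comp he he1)
      refine ⟨w, fun τ hτ => ⟨hw0, ?_⟩⟩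
      rintro (j | j)
      · obtain ⟨π, hπ, hπ2⟩ := h (Pc.get j) (Or.inl ⟨_, hPc ▸ List.get_mem _ _, rfl⟩)
        have h4 := hw _ hπ
        simp only at h4
        rw [hπ2] at h4
        rw [hbb]
        exact h4
      · obtain ⟨π, hπ, hπ2⟩ := h (jt C.hp K.hp τ ++ (Pk.get j).1, (Pk.get j).2)
          (Or.inr ⟨τ, hτ, Pk.get j, hPk ▸ List.get_mem _ _, rfl⟩)
        have h4 := hw _ hπ
        simp only at h4 hπ2
        rw [hπ2] at h4
        rw [hbb]
        exact h4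
    · rintro μ ν hμ hν hinc ⟨w, h4, h5⟩
      have key : ∀ (ρ μ' ν' : Nd), (ρ ++ false :: μ').length ≤ N →
          (ρ ++ true :: ν').length ≤ N → TT R a2 w (bb (ρ ++ false :: μ')) →
          TT R a2 w (bb (ρ ++ true :: ν')) → False := by
        intro ρ μ' ν' l1 l2 t1 t2
        simp only [List.length_append, List.length_cons] at l1 l2
        refine hg (E ρ μ' ν') (hE1 ρ μ' ν') (fun η hη =>
          (hb ρ μ' ν' η (by omega) (by omega) (by omega) hη).trans (le_max_right _ _)) ?_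
        refine ⟨w, t1.1, fun p hp => ?_⟩
        rw [hF] at hp
        rw [hbb] at t1 t2
        rcases hE2 ρ μ' ν' p hp with ⟨hp1, hp2⟩ | ⟨p', hp', hl, h | h⟩
        · rw [← hPc] at hp1
          obtain ⟨j, hj⟩ := List.get_of_mem hp1
          have h6 := t1.2 (Sum.inl j)
          simp only [a2, Sum.elim_inl] at h6
          rw [hj] at h6
          simp only
          rw [hp2]
          exact h6
        · rw [← hPk] at hp'
          obtain ⟨j, hj⟩ := List.get_of_mem hp'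
          have h6 := t1.2 (Sum.inr j)
          simp only [a2, Sum.elim_inr] at h6
          rw [hj] at h6
          simp only
          rw [h, ← hl]
          exact h6
        · rw [← hPk] at hp'
          obtain ⟨j, hj⟩ := List.get_of_mem hp'
          have h6 := t2.2 (Sum.inr j)
          simp only [a2, Sum.elim_inr] at h6
          rw [hj] at h6
          simp only
          rw [h, ← hl]
          exact h6
      obtain ⟨ρ, μ', ν', ⟨e1, e2⟩ | ⟨e1, e2⟩⟩ := inc_split μ ν hinc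
      · rw [e1] at hμ h4
        rw [e2] at hν h5
        exact key ρ μ' ν' hμ hν h4 h5
      · rw [e1] at hμ h4
        rw [e2] at hν h5
        exact key ρ ν' μ' hν hμ h5 h4

end Pool.Agent.K1H26.PL
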